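import Pool.Agent.Q72.AL.Stm2

/-! # Project AL (MP_f0209c_nt), job GI -/

set_option autoImplicit false

open Complex MeasureTheory Filter Topology Set
open Pool.Agent.Q72.AL

namespace Pool.Agent.Q76.AL

theorem img {y : ℝ} (hy : 0 < y) : (fun x : ℝ => y * Real.exp x) '' univ = Ioi 0 := by
  ext z
  constructor
  · rintro ⟨x, -, rfl⟩
    exact mul_pos hy (Real.exp_pos x)
  · intro hz
    refine ⟨Real.log (z / y), mem_univ _, ?_⟩
    show y * Real.exp (Real.log (z / y)) = z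
    rw [Real.exp_log (div_pos hz hy)]
    field_simp

theorem der (y x : ℝ) (S : Set ℝ) :
    HasDerivWithinAt (fun x : ℝ => y * Real.exp x) (y * Real.exp x) S x :=
  ((Real.hasDerivAt_exp x).const_mul y).hasDerivWithinAt

theorem inj {y : ℝ} (hy : 0 < y) : InjOn (fun x : ℝ => y * Real.exp x) univ := by
  intro a _ b _ h
  exact Real.exp_injective (mul_left_cancel₀ hy.ne' h)

theorem gsq (x : ℝ) : gg 2 x ^ 2 = Real.exp (-(x ^ 2 / 4)) / (8 * Real.pi) := by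
  unfold gg
  rw [mul_pow, inv_pow, mul_pow, Real.sq_sqrt (by positivity), ← Real.exp_nat_mul]
  have h1 : ((2 : ℕ) : ℝ) * -(x ^ 2 / (4 * 2)) = -(x ^ 2 / 4) := by push_cast; ring
  rw [h1]
  field_simp
  ring

theorem key (s : ℂ) {y : ℝ} (hy : 0 < y) (x : ℝ) :
    |y * Real.exp x| • (((gg 2 (Real.log (y * Real.exp x) - Real.log y) ^ 2 : ℝ) : ℂ) *
      ((y * Real.exp x : ℝ) : ℂ) ^ (-s - 1)) =
    ((y : ℂ) ^ (-s) * ((8 * Real.pi : ℝ) : ℂ)⁻¹) *
      cexp ((-(1 / 4) : ℂ) * (x : ℂ) ^ 2 + (-s) * (x : ℂ) + 0) := by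
  have hex := Real.exp_pos x
  have hpos : 0 < y * Real.exp x := mul_pos hy hex
  have hlog : Real.log (y * Real.exp x) - Real.log y = x := by
    rw [Real.log_mul hy.ne' hex.ne', Real.log_exp]; ring
  have hne : ((y * Real.exp x : ℝ) : ℂ) ≠ 0 := by exact_mod_cast hpos.ne'
  rw [hlog, gsq, abs_of_pos hpos, Complex.real_smul, Complex.cpow_sub _ _ hne, Complex.cpow_one,
    Complex.ofReal_mul, Complex.mul_cpow_ofReal_nonneg hy.le hex.le]
  have h1 : ((Real.exp x : ℝ) : ℂ) ^ (-s) = cexp (-s * x) := by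
    rw [Complex.cpow_def_of_ne_zero (by exact_mod_cast hex.ne'), Complex.ofReal_exp,
      Complex.log_exp (by simp [Real.pi_pos]) (by simp [Real.pi_pos.le])]
    congr 1; ring
  rw [h1, Complex.exp_add, Complex.exp_add, Complex.exp_zero]
  have h2 : ((Real.exp (-(x ^ 2 / 4)) / (8 * Real.pi) : ℝ) : ℂ) =
      cexp (-(1 / 4) * (x : ℂ) ^ 2) * ((8 * Real.pi : ℝ) : ℂ)⁻¹ := by
    rw [div_eq_mul_inv, Complex.ofReal_mul, Complex.ofReal_inv, Complex.ofReal_exp]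
    congr 2
    push_cast; ring
  rw [h2]
  have hy0 : (y : ℂ) ≠ 0 := by exact_mod_cast hy.ne'
  have he0 : ((Real.exp x : ℝ) : ℂ) ≠ 0 := by exact_mod_cast hex.ne'
  field_simp

theorem gi : J_GI := by
  intro s y hy
  have hb : (-(1 / 4) : ℂ).re < 0 := by norm_num
  have h1 : Integrable (fun x : ℝ => cexp ((-(1 / 4) : ℂ) * (x : ℂ) ^ 2 + (-s) * (x : ℂ) + 0)) :=
    integrable_cexp_quadratic' hb (-s) 0
  have h2 : ∫ x : ℝ, cexp ((-(1 / 4) : ℂ) * (x : ℂ) ^ 2 + (-s) * (x : ℂ) + 0) =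
      (Real.pi / -(-(1 / 4) : ℂ)) ^ (1 / 2 : ℂ) * cexp (0 - (-s) ^ 2 / (4 * (-(1 / 4) : ℂ))) :=
    integral_cexp_quadratic hb (-s) 0
  rw [← img hy]
  constructor
  · rw [integrableOn_image_iff_integrableOn_abs_deriv_smul MeasurableSet.univ
      (fun x _ => der y x univ) (inj hy), integrableOn_univ]
    have h3 := h1.const_mul ((y : ℂ) ^ (-s) * ((8 * Real.pi : ℝ) : ℂ)⁻¹)
    refine h3.congr (Eventually.of_forall fun x => ?_)
    exact (key s hy x).symm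
  · rw [integral_image_eq_integral_abs_deriv_smul MeasurableSet.univ
      (fun x _ => der y x univ) (inj hy), setIntegral_univ]
    have h3 : ∀ x : ℝ, |y * Real.exp x| •
        (((gg 2 (Real.log (y * Real.exp x) - Real.log y) ^ 2 : ℝ) : ℂ) *
          ((y * Real.exp x : ℝ) : ℂ) ^ (-s - 1)) =
        ((y : ℂ) ^ (-s) * ((8 * Real.pi : ℝ) : ℂ)⁻¹) *
          cexp ((-(1 / 4) : ℂ) * (x : ℂ) ^ 2 + (-s) * (x : ℂ) + 0) := key s hy
    simp only [h3]
    rw [integral_const_mul, h2, mul_assoc]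
    congr 1
    have h4 : (Real.pi / -(-(1 / 4) : ℂ)) ^ (1 / 2 : ℂ) = 2 * ((Real.sqrt Real.pi : ℝ) : ℂ) := by
      have h5 : (Real.pi / -(-(1 / 4) : ℂ)) = ((4 * Real.pi : ℝ) : ℂ) := by push_cast; ring
      have h6 : (1 / 2 : ℂ) = ((1 / 2 : ℝ) : ℂ) := by push_cast; ring
      rw [h5, h6, ← Complex.ofReal_cpow (by positivity), ← Real.sqrt_eq_rpow,
        Real.sqrt_mul (by norm_num), show (4 : ℝ) = 2 ^ 2 by norm_num,
        Real.sqrt_sq (by norm_num)]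
      push_cast; ring
    have h7 : (0 - (-s) ^ 2 / (4 * (-(1 / 4) : ℂ))) = s ^ 2 := by ring
    rw [h4, h7]
    have h8 : ((Real.pi : ℝ) : ℂ) = ((Real.sqrt Real.pi : ℝ) : ℂ) ^ 2 := by
      rw [← Complex.ofReal_pow, Real.sq_sqrt Real.pi_pos.le]
    have h9 : ((Real.sqrt Real.pi : ℝ) : ℂ) ≠ 0 := by
      exact_mod_cast (Real.sqrt_pos.2 Real.pi_pos).ne'
    have h10 : ((8 * Real.pi : ℝ) : ℂ) = 8 * ((Real.sqrt Real.pi : ℝ) : ℂ) ^ 2 := by
      rw [← h8]; push_cast; ring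
    rw [h10]
    field_simp
    ring

end Pool.Agent.Q76.AL
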